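import Pool.Agent.R384.Z.FmMono
import Pool.Agent.R384.Z.Abs

/-!
# Density of the decomposition group at `2`: fields in the `2`-extensions of `ℚ` unramified outside
# `2` and a prime number `q = ± 3 mod 8`
-/

set_option autoImplicit false
set_option linter.unusedSectionVars false

namespace Pool.Agent.N817

open Pool.Agent.Z384
open Pool.Agent.Y715.Red Pool.Agent.Y715.Nr Pool.Agent.W237.RK
open Pool.Agent.Y715.Gi (QB)
open IsLocalRing Matrix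

/-- the absolute Galois group of `ℚ` -/
abbrev GQ : Type := QB ≃ₐ[ℚ] QB

/-- the inertia elements for the embedding `ι` -/
def IQ {p : ℕ} [Fact p.Prime] (ι : QB →ₐ[ℚ] PadicAlgCl p) : Set GQ :=
  {σ | ∃ τ : Au p, (∀ x, τ (ι x) = ι (σ x)) ∧ Inert τ}

lemma IQ_conj {p : ℕ} [Fact p.Prime] {ι : QB →ₐ[ℚ] PadicAlgCl p} {σ : GQ}
    (hσ : σ ∈ IQ ι) (r : GQ) : r⁻¹ * σ * r ∈ IQ (ι.comp r.toAlgHom) := by
  obtain ⟨τ, h1, h2⟩ := hσ
  refine ⟨τ, fun x => ?_, h2⟩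
  show τ (ι (r x)) = ι (r ((r⁻¹ * σ * r) x))
  rw [h1, ← AlgEquiv.mul_apply, ← AlgEquiv.mul_apply]
  congr 2
  group

/-- quadratic fields ramified outside `2` and `q` -/
theorem condU {q : ℕ} (hq : q.Prime) (hq8 : q % 8 = 3 ∨ q % 8 = 5) {U : Subgroup GQ}
    (hu : ∀ (p : ℕ) [Fact p.Prime] (ι : QB →ₐ[ℚ] PadicAlgCl p), p ≠ 2 → p ≠ q →
      ∀ σ ∈ IQ ι, σ ∈ U)
    (e : ℤ) (he : Squarefree e.natAbs) (he8 : e % 8 = 1) (hne : e ≠ 1) (t : QB) (ht : t ^ 2 = e) :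
    ∃ σ ∈ U, σ t ≠ t := by
  obtain ⟨p, hp, hpe, hp2, hpq⟩ : ∃ p : ℕ, p.Prime ∧ p ∣ e.natAbs ∧ p ≠ 2 ∧ p ≠ q := by
    by_contra hcon
    push Not at hcon
    have h2 : ¬ 2 ∣ e.natAbs := by omega
    have h3 : ∀ p : ℕ, p.Prime → p ∣ e.natAbs → p = q := by
      intro p hp hpe
      exact hcon p hp hpe (by rintro rfl; exact h2 hpe)
    have h4 : e.natAbs ∣ q := by
      have h5 := (Nat.prod_primeFactors_of_squarefree he)
      rw [← h5]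
      have h6 : e.natAbs.primeFactors ⊆ q.primeFactors := by
        intro p hp
        have hpp := Nat.prime_of_mem_primeFactors hp
        rw [h3 p hpp (Nat.dvd_of_mem_primeFactors hp)]
        exact Nat.mem_primeFactors.2 ⟨hq, dvd_rfl, hq.ne_zero⟩
      have h7 := Finset.prod_dvd_prod_of_subset _ _ (fun p : ℕ => p) h6
      rwa [Nat.prod_primeFactors_of_squarefree hq.prime.squarefree] at h7
    rcases (Nat.dvd_prime hq).1 h4 with h5 | h5 <;> omega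
  have : Fact p.Prime := ⟨hp⟩
  obtain ⟨ι⟩ : Nonempty (QB →ₐ[ℚ] PadicAlgCl p) :=
    ⟨IsAlgClosed.lift (R := ℚ) (S := QB) (M := AlgebraicClosure ℚ_[p])⟩
  by_contra hcon
  push Not at hcon
  have ht0 : t ≠ 0 := by
    rintro rfl
    have h1 : (e : QB) = 0 := by rw [← ht]; ring
    have h2 : e = 0 := by exact_mod_cast h1
    rw [h2] at he8
    omega
  have hmem : ι t ∈ kur p := mem_kur fun τ hτ => by
    obtain ⟨σ, hσ⟩ := exists_cmpQ ι τ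
    rw [hσ, hcon σ (hu p ι hp2 hpq σ ⟨τ, hσ, inert_of_kur hτ⟩)]
  obtain ⟨m, hm⟩ := norm_ne ((map_ne_zero ι).2 ht0) hmem
  have he0 : (e : ℚ) ≠ 0 := by
    intro h
    have h2 : e = 0 := by exact_mod_cast h
    rw [h2] at he8
    omega
  have h1 : Even (padicValRat p (e : ℚ)) := by
    refine val_of_norm (p := p) he0 (m := m) ?_
    have h1 : (((e : ℚ) : ℚ) : PadicAlgCl p) = (ι t) ^ 2 := by
      rw [← map_pow, ht, map_intCast, Rat.cast_intCast]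
    rw [h1, norm_pow, hm, mul_comm, _root_.zpow_mul]
    norm_cast
  exact sqf_odd (p := p) (r := (e : ℚ)) (e := e) (f := 1) one_ne_zero he (by ring) h1 hpe

/-- **Surjectivity** of the decomposition group at `2` onto the Galois groups of the `2`-extensions
of `ℚ`. -/
theorem surjQ {U : Subgroup GQ} (hUn : U.Normal) {a : ℕ} (hUi : U.index = 2 ^ a)
    (hUo : IsOpen (U : Set GQ))
    (hC : ∀ e : ℤ, Squarefree e.natAbs → e % 8 = 1 → e ≠ 1 → ∀ t : QB, t ^ 2 = e →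
      ∃ σ ∈ U, σ t ≠ t)
    (ι : QB →ₐ[ℚ] PadicAlgCl 2) (g : GQ) : ∃ δ ∈ DQ ι, δ⁻¹ * g ∈ U := by
  refine surjA (DQ ι) hUn hUi hUo (fun h hc hm hU hD => ?_) g
  refine keyQ h hc hm hD fun e he he8 hne t ht => ?_
  obtain ⟨σ, hσ, hσt⟩ := hC e he he8 hne t ht
  exact ⟨σ, hU σ hσ, hσt⟩

/-- **Surjectivity** for the fields in the `2`-extensions unramified outside `2` and `q`. -/
theorem surjHQ {q : ℕ} (hq : q.Prime) (hq8 : q % 8 = 3 ∨ q % 8 = 5)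
    {H N : Subgroup GQ} (hNH : N ≤ H) (hNn : N.Normal)
    (hNi : ∃ a : ℕ, N.index = 2 ^ a) (hNo : IsOpen (N : Set GQ))
    (hur : ∀ (p : ℕ) [Fact p.Prime] (ι : QB →ₐ[ℚ] PadicAlgCl p), p ≠ 2 → p ≠ q →
      ∀ σ ∈ IQ ι, σ ∈ N)
    {U : Subgroup H} (hUn : U.Normal) {b : ℕ} (hUi : U.index = 2 ^ b)
    (hUo : IsOpen (U : Set H))
    (hu : ∀ (p : ℕ) [Fact p.Prime] (ι : QB →ₐ[ℚ] PadicAlgCl p), p ≠ 2 → p ≠ q →
      ∀ σ : H, (σ : GQ) ∈ IQ ι → σ ∈ U)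
    (ι₀ : QB →ₐ[ℚ] PadicAlgCl 2) (h : H) :
    ∃ δ : H, (δ : GQ) ∈ DQ ι₀ ∧ δ⁻¹ * h ∈ U := by
  obtain ⟨a, hNi⟩ := hNi
  have hNf : N.FiniteIndex := ⟨by rw [hNi]; positivity⟩
  have hHf : H.FiniteIndex := Subgroup.finiteIndex_of_le hNH
  have hHo : IsOpen (H : Set GQ) := Subgroup.isOpen_mono hNH hNo
  have hUf : U.FiniteIndex := ⟨by rw [hUi]; positivity⟩
  set W : Subgroup GQ := U.map H.subtype ⊓ N with hW
  have hWo : IsOpen (W : Set GQ) := by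
    refine IsOpen.inter ?_ hNo
    exact hHo.isOpenEmbedding_subtypeVal.isOpenMap _ hUo
  have hmf : (U.map H.subtype).FiniteIndex := ⟨by
    rw [Subgroup.index_map_subtype]
    exact mul_ne_zero hUf.index_ne_zero hHf.index_ne_zero⟩
  have hWf : W.FiniteIndex := inferInstance
  have hCf : W.normalCore.FiniteIndex := inferInstance
  have hWc : IsClosed (W : Set GQ) := Subgroup.isClosed_of_isOpen _ hWo
  have hCo : IsOpen (W.normalCore : Set GQ) :=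
    Subgroup.isOpen_of_isClosed_of_finiteIndex _ (W.normalCore_isClosed hWc)
  have hCn : W.normalCore.Normal := W.normalCore_normal
  have hp2 : IsPGroup 2 (GQ ⧸ W.normalCore) := by
    intro x
    obtain ⟨g, rfl⟩ := QuotientGroup.mk_surjective x
    refine ⟨a + b, ?_⟩
    rw [← QuotientGroup.mk_pow]
    refine (QuotientGroup.eq_one_iff _).2 ?_
    intro r
    have h1 : r * g ^ 2 ^ a * r⁻¹ ∈ N := by
      refine hNn.conj_mem _ ?_ r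
      rw [← hNi]
      exact N.pow_index_mem g
    have e : r * g ^ 2 ^ (a + b) * r⁻¹ = (r * g ^ 2 ^ a * r⁻¹) ^ 2 ^ b := by
      rw [conj_pow, ← pow_mul, ← pow_add]
    rw [e]
    refine ⟨?_, pow_mem h1 _⟩
    refine ⟨(⟨r * g ^ 2 ^ a * r⁻¹, hNH h1⟩ : H) ^ 2 ^ b, ?_, rfl⟩
    rw [← hUi]
    exact U.pow_index_mem _
  obtain ⟨c, hc⟩ := IsPGroup.iff_card.1 hp2
  have hram : ∀ (p : ℕ) [Fact p.Prime] (ι : QB →ₐ[ℚ] PadicAlgCl p), p ≠ 2 → p ≠ q →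
      ∀ σ ∈ IQ ι, σ ∈ W.normalCore := by
    intro p _ ι hp hpq σ hσ r
    have h1 : r * σ * r⁻¹ ∈ IQ (ι.comp (r⁻¹ : GQ).toAlgHom) := by
      have := IQ_conj hσ r⁻¹
      rwa [inv_inv] at this
    have h2 : r * σ * r⁻¹ ∈ N := hur p _ hp hpq _ h1
    exact ⟨⟨⟨r * σ * r⁻¹, hNH h2⟩, hu p _ hp hpq _ h1, rfl⟩, h2⟩
  obtain ⟨δ, hδ, hδU⟩ := surjQ hCn (a := c) hc hCo (fun e he he8 hne t ht =>
    condU hq hq8 hram e he he8 hne t ht) ι₀ (h : GQ)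
  have h3 : δ⁻¹ * (h : GQ) ∈ W := W.normalCore_le hδU
  obtain ⟨⟨u, hu1, hu2⟩, h4⟩ := h3
  have hu2' : (u : GQ) = δ⁻¹ * h := hu2
  have hδH : δ = h * (u : GQ)⁻¹ := by rw [hu2']; group
  refine ⟨⟨δ, by rw [hδH]; exact mul_mem h.2 (inv_mem u.2)⟩, hδ, ?_⟩
  have e : (⟨δ, by rw [hδH]; exact mul_mem h.2 (inv_mem u.2)⟩ : H)⁻¹ * h = u :=
    Subtype.ext hu2'.symm
  rw [e]
  exact hu1

variable {A : Type*} [CommRing A] [IsLocalRing A] [IsNoetherianRing A] [TopologicalSpace A] {n : ℕ}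

/-- **The decomposition group at `2` is dense in the image.** -/
theorem denseH {q : ℕ} (hq : q.Prime) (hq8 : q % 8 = 3 ∨ q % 8 = 5)
    {H N : Subgroup GQ} (hNH : N ≤ H) (hNn : N.Normal)
    (hNi : ∃ a : ℕ, N.index = 2 ^ a) (hNo : IsOpen (N : Set GQ))
    (hur : ∀ (p : ℕ) [Fact p.Prime] (ι : QB →ₐ[ℚ] PadicAlgCl p), p ≠ 2 → p ≠ q →
      ∀ σ ∈ IQ ι, σ ∈ N)
    (hA : IsAdic (maximalIdeal A)) (hfin : Finite (ResidueField A)) (h2 : (2 : A) ∈ maximalIdeal A)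
    {ρ : H →* GL (Fin n) A}
    (hρ : ∀ i j, Continuous fun σ => (ρ σ : Matrix (Fin n) (Fin n) A) i j)
    (hres : ∀ σ, ∃ M : ℕ, InI (maximalIdeal A) (((ρ σ : Matrix (Fin n) (Fin n) A) - 1) ^ M))
    (hu : ∀ (p : ℕ) [Fact p.Prime] (ι : QB →ₐ[ℚ] PadicAlgCl p), p ≠ 2 → p ≠ q →
      ∀ σ : H, (σ : GQ) ∈ IQ ι → ρ σ = 1)
    (ι₀ : QB →ₐ[ℚ] PadicAlgCl 2) (m : ℕ) (g : H) :
    ∃ δ ∈ (DQ ι₀).subgroupOf H, δ⁻¹ * g ∈ cong ρ m := by
  obtain ⟨b, hb⟩ := cong_index h2 hfin ρ hres m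
  obtain ⟨δ, hδ, hδg⟩ := surjHQ hq hq8 hNH hNn hNi hNo hur (cong_normal ρ m) hb (cong_open hA hρ m)
    (fun p _ ι hp hpq σ hσ => by
      show GeneralLinearGroup.map (n := Fin n) (Ideal.Quotient.mk (maximalIdeal A ^ m)) (ρ σ) = 1
      rw [hu p ι hp hpq σ hσ, map_one]) ι₀ g
  exact ⟨δ, hδ, hδg⟩

end Pool.Agent.N817
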