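import Pool.Agent.N817.DensTwo

/-!
# The two results over the fields in the `2`-extensions of `ℚ` unramified outside `2` and `q`
-/

set_option autoImplicit false
set_option linter.unusedSectionVars false

namespace Pool.Agent.N817

open Pool.Agent.Z384
open Pool.Agent.Y715.Red Pool.Agent.Y715.Nr Pool.Agent.W237.RK
open Pool.Agent.Y715.Gi (QB)
open IsLocalRing Matrix

variable {A : Type*} [CommRing A] [IsLocalRing A] [IsNoetherianRing A] [TopologicalSpace A] {n : ℕ}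
variable {F : Type*} [Field F] [Algebra A F] [IsFractionRing A F]

theorem irrL {q : ℕ} (hq : q.Prime) (hq8 : q % 8 = 3 ∨ q % 8 = 5)
    {L : IntermediateField ℚ QB} (hL : InTwo q L)
    (hA : IsAdic (maximalIdeal A)) (hfin : Finite (ResidueField A)) (h2 : (2 : A) ∈ maximalIdeal A)
    {ρ : L.fixingSubgroup →* GL (Fin n) A}
    (hρ : ∀ i j, Continuous fun σ => (ρ σ : Matrix (Fin n) (Fin n) A) i j)
    (hres : ∀ σ, ∃ M : ℕ, InI (maximalIdeal A) (((ρ σ : Matrix (Fin n) (Fin n) A) - 1) ^ M))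
    (hu : ∀ (p : ℕ) [Fact p.Prime] (ι : QB →ₐ[ℚ] PadicAlgCl p), p ≠ 2 → p ≠ q →
      ∀ σ : L.fixingSubgroup, (σ : GQ) ∈ IQ ι → ρ σ = 1)
    (ι₀ : QB →ₐ[ℚ] PadicAlgCl 2) (hirr : Irr F ρ) (W : Submodule F (Fin n → F))
    (hW : ∀ σ : L.fixingSubgroup, (σ : GQ) ∈ DQ ι₀ → ∀ w ∈ W,
      ((ρ σ : Matrix (Fin n) (Fin n) A).map (algebraMap A F)) *ᵥ w ∈ W) : W = ⊥ ∨ W = ⊤ :=
  irr_of_dense (denseL hq hq8 hL hA hfin h2 hρ hres hu ι₀) hirr W fun δ hδ => hW δ hδ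

theorem dihL {q : ℕ} (hq : q.Prime) (hq8 : q % 8 = 3 ∨ q % 8 = 5)
    {L : IntermediateField ℚ QB} (hL : InTwo q L)
    (hA : IsAdic (maximalIdeal A)) (hfin : Finite (ResidueField A)) (h2 : (2 : A) ∈ maximalIdeal A)
    {ρ : L.fixingSubgroup →* GL (Fin 2) A}
    (hρ : ∀ i j, Continuous fun σ => (ρ σ : Matrix (Fin 2) (Fin 2) A) i j)
    (hres : ∀ σ, ∃ M : ℕ, InI (maximalIdeal A) (((ρ σ : Matrix (Fin 2) (Fin 2) A) - 1) ^ M))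
    (hu : ∀ (p : ℕ) [Fact p.Prime] (ι : QB →ₐ[ℚ] PadicAlgCl p), p ≠ 2 → p ≠ q →
      ∀ σ : L.fixingSubgroup, (σ : GQ) ∈ IQ ι → ρ σ = 1)
    (ι₀ : QB →ₐ[ℚ] PadicAlgCl 2) (hirr : Irr F ρ)
    {D' : Subgroup L.fixingSubgroup} {R : Set L.fixingSubgroup} {v : Fin 2 → F} (hRf : R.Finite)
    (hR : ∀ δ : L.fixingSubgroup, (δ : GQ) ∈ DQ ι₀ → ∃ r ∈ R, r⁻¹ * δ ∈ D') (hv : v ≠ 0)
    (hD' : ∀ δ ∈ D', ∃ c : F, act F ρ δ v = c • v)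
    (hdist : ∃ δ ∈ D', ∀ k : ℕ, 0 < k → ∀ c : F, act F ρ (δ ^ k) v = c • v →
      c ^ 2 ≠ algebraMap A F ((ρ (δ ^ k) : Matrix (Fin 2) (Fin 2) A).det)) :
    ∃ (T : Subgroup L.fixingSubgroup) (v : Fin 2 → F), T.index = 2 ∧
      IsOpen (T : Set L.fixingSubgroup) ∧ v ≠ 0 ∧ ∀ σ ∈ T, ∃ c : F, act F ρ σ v = c • v := by
  obtain ⟨T, h3, h4, h5⟩ := dih_of_line hA hρ
    (denseL hq hq8 hL hA hfin h2 hρ hres hu ι₀) hRf (fun δ hδ => hR δ hδ) hirr hv hD' hdist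
  exact ⟨T, v, h3, h4, hv, h5⟩

end Pool.Agent.N817
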