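import Pool.Agent.N817.Dens

/-!
# Two-dimensional representations: irreducibility at `2` and the dihedral case
-/

set_option autoImplicit false
set_option linter.unusedSectionVars false

namespace Pool.Agent.N817

open Pool.Agent.Z384
open Pool.Agent.Y715.Red Pool.Agent.Y715.Nr Pool.Agent.W237.RK
open Pool.Agent.Y715.Gi (QB)
open IsLocalRing Matrix

variable {A : Type*} [CommRing A] [IsLocalRing A] [IsNoetherianRing A] {n : ℕ}
variable {G : Type*} [Group G]
variable {F : Type*} [Field F] [Algebra A F] [IsFractionRing A F]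

/-- a subspace stable under a dense subgroup is stable -/
theorem stable_of_dense {ρ : G →* GL (Fin n) A} {D : Subgroup G}
    (happ : ∀ (m : ℕ) (g : G), ∃ δ ∈ D, δ⁻¹ * g ∈ cong ρ m)
    (W : Submodule F (Fin n → F)) (hW : ∀ δ ∈ D, ∀ w ∈ W, act F ρ δ w ∈ W) (g : G) (w : Fin n → F)
    (hw : w ∈ W) : act F ρ g w ∈ W := by
  have hD : D ≤ stb ρ W := by
    intro δ hδ w
    refine ⟨hW δ hδ w, fun hw => ?_⟩
    have := hW δ⁻¹ (inv_mem hδ) _ hw
    rwa [← act_mul, inv_mul_cancel, act_one] at this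
  exact ((stb_of_lim ρ W hD (fun m => happ m g)) w).1 hw

/-- an irreducible representation is irreducible on a dense subgroup -/
theorem irr_of_dense {ρ : G →* GL (Fin n) A} {D : Subgroup G}
    (happ : ∀ (m : ℕ) (g : G), ∃ δ ∈ D, δ⁻¹ * g ∈ cong ρ m) (hirr : Irr F ρ)
    (W : Submodule F (Fin n → F)) (hW : ∀ δ ∈ D, ∀ w ∈ W, act F ρ δ w ∈ W) : W = ⊥ ∨ W = ⊤ :=
  hirr W fun g w hw => stable_of_dense happ W hW g w hw

/-- **The two-dimensional case**: a potential line on which the character has infinite distance from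
the other character. -/
theorem dih_of_line [TopologicalSpace G] [IsTopologicalGroup G] [TopologicalSpace A]
    (hA : IsAdic (maximalIdeal A)) {ρ : G →* GL (Fin 2) A}
    (hρ : ∀ i j, Continuous fun σ => (ρ σ : Matrix (Fin 2) (Fin 2) A) i j) {D D' : Subgroup G}
    (happ : ∀ (m : ℕ) (g : G), ∃ δ ∈ D, δ⁻¹ * g ∈ cong ρ m)
    {R : Set G} (hRf : R.Finite) (hR : ∀ δ ∈ D, ∃ r ∈ R, r⁻¹ * δ ∈ D')
    (hirr : Irr F ρ)
    {v : Fin 2 → F} (hv : v ≠ 0) (hD' : ∀ δ ∈ D', ∃ c : F, act F ρ δ v = c • v)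
    (hdist : ∃ δ ∈ D', ∀ k : ℕ, 0 < k → ∀ c : F, act F ρ (δ ^ k) v = c • v →
      c ^ 2 ≠ algebraMap A F ((ρ (δ ^ k) : Matrix (Fin 2) (Fin 2) A).det)) :
    ∃ T : Subgroup G, T.index = 2 ∧ IsOpen (T : Set G) ∧ ∀ σ ∈ T, ∃ c : F, act F ρ σ v = c • v := by
  rcases dih hA hρ happ hRf hR hirr hv hD' with ⟨S, hSn, hSf, hSo, hS⟩ | h
  · exfalso
    obtain ⟨δ, hδ, hk⟩ := hdist
    have hpos : 0 < S.index := Nat.pos_of_ne_zero hSf.index_ne_zero
    have hmem : δ ^ S.index ∈ S := Subgroup.pow_index_mem S δ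
    obtain ⟨c, hc⟩ := hS _ hmem
    refine hk S.index hpos c (hc v) ?_
    have hM : ((ρ (δ ^ S.index) : Matrix (Fin 2) (Fin 2) A).map (algebraMap A F)) =
        c • (1 : Matrix (Fin 2) (Fin 2) F) := by
      apply Matrix.toLin'.injective
      refine LinearMap.ext fun w => ?_
      rw [Matrix.toLin'_apply, Matrix.toLin'_apply, Matrix.smul_mulVec, Matrix.one_mulVec]
      exact hc w
    have h1 := congrArg Matrix.det hM
    rw [Matrix.det_smul, Matrix.det_one, mul_one, Fintype.card_fin] at h1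
    rw [← h1, RingHom.map_det]
    rfl
  · exact h

end Pool.Agent.N817

namespace Pool.Agent.N817

open Pool.Agent.Z384
open Pool.Agent.Y715.Red Pool.Agent.Y715.Nr Pool.Agent.W237.RK
open Pool.Agent.Y715.Gi (QB)
open IsLocalRing Matrix

lemma index_gen {K Ω : Type*} [Field K] [Field Ω] [Algebra K Ω] [CharZero K] [Normal K Ω]
    (M : IntermediateField K Ω) [Normal K M] [FiniteDimensional K M] :
    M.fixingSubgroup.index = Module.finrank K M := by
  have hG : IsGalois K M := { }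
  rw [← IntermediateField.restrictNormalHom_ker, Subgroup.index_ker,
    MonoidHom.range_eq_top.2 (AlgEquiv.restrictNormalHom_surjective (F := K) (K₁ := M) Ω),
    Subgroup.card_top, ← IsGalois.card_aut_eq_finrank K M]

lemma normal_gen {K Ω : Type*} [Field K] [Field Ω] [Algebra K Ω] [Normal K Ω]
    (M : IntermediateField K Ω) (h : ∀ σ : Ω ≃ₐ[K] Ω, ∀ x ∈ M, σ x ∈ M) : Normal K M := by
  rw [IntermediateField.normal_iff_forall_map_le']
  rintro σ _ ⟨x, hx, rfl⟩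
  exact h σ x hx

lemma finite_gen {K Ω : Type*} [Field K] [Field Ω] [Algebra K Ω]
    (M : IntermediateField K Ω) (h : 0 < Module.finrank K M) : FiniteDimensional K M :=
  Module.finite_of_finrank_pos h

lemma finrank_eq (M : IntermediateField ℚ QB) :
    @Module.finrank ℚ M _ _ (IntermediateField.algebra' M).toModule = Module.finrank ℚ M := by
  have e : (IntermediateField.algebra' M : Algebra ℚ M) = DivisionRing.toRatAlgebra :=
    Subsingleton.elim _ _
  rw [e]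

lemma fin_fix (M : IntermediateField ℚ QB) {k : ℕ} (hf : Module.finrank ℚ M = k) (hk : 0 < k) :
    @FiniteDimensional ℚ M _ _ (IntermediateField.algebra' M).toModule := by
  refine finite_gen M ?_
  rw [finrank_eq, hf]
  exact hk

lemma index_fix (M : IntermediateField ℚ QB) (hM : ∀ σ : GQ, ∀ x ∈ M, σ x ∈ M) {k : ℕ}
    (hf : Module.finrank ℚ M = k) (hk : 0 < k) :
    M.fixingSubgroup.index = k := by
  rw [@index_gen ℚ QB _ _ _ _ _ M (normal_gen M hM) (fin_fix M hf hk), finrank_eq, hf]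

/-- the field `L` is contained in a `2`-extension of `ℚ` unramified outside `2` and `q` -/
def InTwo (q : ℕ) (L : IntermediateField ℚ QB) : Prop :=
  ∃ M : IntermediateField ℚ QB, L ≤ M ∧ (∀ σ : GQ, ∀ x ∈ M, σ x ∈ M) ∧
    (∃ a : ℕ, Module.finrank ℚ M = 2 ^ a) ∧
    ∀ (p : ℕ) [Fact p.Prime] (ι : QB →ₐ[ℚ] PadicAlgCl p), p ≠ 2 → p ≠ q →
      ∀ σ ∈ (IQ ι : Set GQ), ∀ x ∈ M, σ x = x

lemma InTwo.subgroup {q : ℕ} {L : IntermediateField ℚ QB} (h : InTwo q L) :
    ∃ N : Subgroup GQ, N ≤ L.fixingSubgroup ∧ N.Normal ∧ (∃ a : ℕ, N.index = 2 ^ a) ∧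
      IsOpen (N : Set GQ) ∧
      ∀ (p : ℕ) [Fact p.Prime] (ι : QB →ₐ[ℚ] PadicAlgCl p), p ≠ 2 → p ≠ q →
        ∀ σ ∈ (IQ ι : Set GQ), σ ∈ N := by
  obtain ⟨M, hLM, hM, ⟨a, ha⟩, hur⟩ := h
  have hpos : 0 < 2 ^ a := by positivity
  have hfd := fin_fix M ha hpos
  have hnm := normal_gen M hM
  refine ⟨M.fixingSubgroup, IntermediateField.fixingSubgroup_le hLM, ?_, ⟨a, ?_⟩, ?_, ?_⟩
  · rw [← IntermediateField.restrictNormalHom_ker]
    exact MonoidHom.normal_ker _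
  · exact index_fix M hM ha hpos
  · exact M.fixingSubgroup_isOpen
  · intro p _ ι hp hpq σ hσ
    rw [IntermediateField.mem_fixingSubgroup_iff]
    exact hur p ι hp hpq σ hσ

variable {A : Type*} [CommRing A] [IsLocalRing A] [IsNoetherianRing A] [TopologicalSpace A] {n : ℕ}

theorem denseL {q : ℕ} (hq : q.Prime) (hq8 : q % 8 = 3 ∨ q % 8 = 5)
    {L : IntermediateField ℚ QB} (hL : InTwo q L)
    (hA : IsAdic (maximalIdeal A)) (hfin : Finite (ResidueField A)) (h2 : (2 : A) ∈ maximalIdeal A)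
    {ρ : L.fixingSubgroup →* GL (Fin n) A}
    (hρ : ∀ i j, Continuous fun σ => (ρ σ : Matrix (Fin n) (Fin n) A) i j)
    (hres : ∀ σ, ∃ M : ℕ, InI (maximalIdeal A) (((ρ σ : Matrix (Fin n) (Fin n) A) - 1) ^ M))
    (hu : ∀ (p : ℕ) [Fact p.Prime] (ι : QB →ₐ[ℚ] PadicAlgCl p), p ≠ 2 → p ≠ q →
      ∀ σ : L.fixingSubgroup, (σ : GQ) ∈ IQ ι → ρ σ = 1)
    (ι₀ : QB →ₐ[ℚ] PadicAlgCl 2) (m : ℕ) (g : L.fixingSubgroup) :
    ∃ δ ∈ (DQ ι₀).subgroupOf L.fixingSubgroup, δ⁻¹ * g ∈ cong ρ m := by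
  obtain ⟨N, hNL, hNn, hNi, hNo, hur⟩ := hL.subgroup
  exact denseH hq hq8 hNL hNn hNi hNo hur hA hfin h2 hρ hres hu ι₀ m g

end Pool.Agent.N817
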